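import Pool.Agent.Y731.FG.Stm

/-!
# FG-C: Wronskians of polynomials at units, no cancellation
-/

set_option autoImplicit false
set_option linter.unusedSectionVars false
set_option linter.unusedVariables false

namespace Pool.Agent.Y563.FG

open FF Filter MvPolynomial Pool.Agent.W603.LV Pool.Agent.W603.PV Pool.Agent.W603.CZ
open Pool.Agent.Y731.FG
open scoped Classical

section place

variable {k K : Type*} [Field k] [Field K] [Algebra k K] [CharZero k] [IsFF k K] [IsAlgClosed k]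

/-- a derivation loses at most `1 + |vo P D|` -/
theorem der_loss (P : Place k K) {D : Derivation k K K} (hD : D ≠ 0) {f : K} (hf : D f ≠ 0) :
    P.ord f - (1 + |vo P D|) ≤ P.ord (D f) := by
  have h4 := neg_abs_le (vo P D)
  by_cases h0 : P.ord f = 0
  · obtain ⟨g, hg, e⟩ := der_mul P (ord_unif P) hD (f := f) (Or.inr h0.ge)
    have hg0 : g ≠ 0 := by
      rintro rfl
      rw [mul_zero] at e
      exact hf e
    have h1 := der_pi_ne_zero hD P (ord_unif P)
    rw [e, P.ord_mul h1 hg0, h0]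
    have h2 := hg.resolve_left hg0
    have h3 : P.ord (D (unif P)) = vo P D := rfl
    rw [h3]
    linarith
  · rw [(ord_der P hD h0).2]
    linarith

end place

variable {I : Type} {𝒰 : Ultrafilter I} {k F : Type} [Field k] [IsAlgClosed k] [CharZero k]
  [Field F] {L : I → Type} [∀ i, Field (L i)] [∀ i, Algebra k (L i)] [∀ i, Algebra F (L i)]
  [∀ i, IsFF k (L i)]

/-- lower bounds of determinants -/
theorem oo_det {n : ℕ} (M : Matrix (Fin n) (Fin n) (UL 𝒰 L)) :
    ∀ᶠ ω in EV 𝒰 k L, ∀ (e : Fin n → Fin n → ℤ) (m : ℤ),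
      (∀ i j, M i j = 0 ∨ e i j ≤ oo (M i j) ω) →
      (∀ σ : Equiv.Perm (Fin n), m ≤ ∑ i, e (σ i) i) → (M.det = 0 ∨ m ≤ oo M.det ω) := by
  have h1 : ∀ σ : Equiv.Perm (Fin n), ∀ᶠ ω in EV 𝒰 k L, (∏ i, M (σ i) i) ≠ 0 →
      oo (∏ i, M (σ i) i) ω = ∑ i, oo (M (σ i) i) ω := by
    intro σ
    by_cases h : (∏ i, M (σ i) i) = 0
    · exact Eventually.of_forall fun ω h' => absurd h h'
    · filter_upwards [oo_prod (k := k) Finset.univ (fun i => M (σ i) i)
        (fun j _ => Finset.prod_ne_zero_iff.1 h j (Finset.mem_univ j))] with ω hω _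
      exact hω
  have h2 : ∀ σ : Equiv.Perm (Fin n), ∀ᶠ ω in EV 𝒰 k L,
      oo (((Equiv.Perm.sign σ : ℤ) : UL 𝒰 L) * ∏ i, M (σ i) i) ω = oo (∏ i, M (σ i) i) ω := by
    intro σ
    rcases Int.units_eq_one_or (Equiv.Perm.sign σ) with h | h
    · rw [h]
      refine Eventually.of_forall fun ω => ?_
      simp
    · rw [h]
      filter_upwards [oo_neg (k := k) (∏ i, M (σ i) i)] with ω hω
      rw [← hω]
      congr 1
      simp
  filter_upwards [oo_sum (k := k) Finset.univ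
    (fun σ : Equiv.Perm (Fin n) => ((Equiv.Perm.sign σ : ℤ) : UL 𝒰 L) * ∏ i, M (σ i) i),
    eventually_all.2 h1, eventually_all.2 h2] with ω h3 h4 h5 e m hM hm
  rw [Matrix.det_apply']
  apply h3 m
  intro σ _
  by_cases h : (∏ i, M (σ i) i) = 0
  · left
    rw [h, mul_zero]
  · right
    rw [h5 σ, h4 σ h]
    refine (hm σ).trans (Finset.sum_le_sum fun i _ => ?_)
    exact (hM (σ i) i).resolve_left (Finset.prod_ne_zero_iff.1 h i (Finset.mem_univ i))

theorem perm_sum {n : ℕ} (c : Fin n → ℤ) (e : Fin n → Fin n → ℤ) (he : ∀ i j, 0 ≤ e i j)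
    (σ : Equiv.Perm (Fin n)) :
    ∑ i, c i - ∑ i, ∑ r, e i r ≤ ∑ i, (c (σ i) - e (σ i) i) := by
  rw [Finset.sum_sub_distrib, Equiv.sum_comp σ c]
  have h1 : ∑ i, e (σ i) i = ∑ j, e j (σ.symm j) := by
    rw [← Equiv.sum_comp σ (fun j => e j (σ.symm j))]
    simp
  rw [h1]
  have h2 : ∑ j, e j (σ.symm j) ≤ ∑ i, ∑ r, e i r := Finset.sum_le_sum fun i _ =>
    Finset.single_le_sum (f := fun r => e i r) (fun r _ => he i r) (Finset.mem_univ (σ.symm i))
  linarith

theorem step_loss (Δ : Dt 𝒰 k F L) (y : UL 𝒰 L) : ∀ᶠ ω in EV 𝒰 k L,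
    uD Δ.D y = 0 ∨ oo y ω - (1 + |vo ω.2 (Δ.D ω.1)|) ≤ oo (uD Δ.D y) ω := by
  by_cases h : uD Δ.D y = 0
  · exact Eventually.of_forall fun ω => Or.inl h
  · have e : uD Δ.D y = um 𝒰 (fun i => Δ.D i (rep y i)) := rfl
    rw [ev_iff]
    filter_upwards [rep_um (𝒰 := 𝒰) (fun i => Δ.D i (rep y i)), rep_ne h, Δ.D_ne] with i h1 h2 h3 P
    right
    unfold oo
    rw [← e] at h1
    rw [h1] at h2
    show P.ord (rep y i) - (1 + |vo P (Δ.D i)|) ≤ P.ord (rep (uD Δ.D y) i)
    rw [h1]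
    exact der_loss P h3 h2

theorem iter_loss (Δ : Dt 𝒰 k F L) (x : UL 𝒰 L) (r : ℕ) : ∀ᶠ ω in EV 𝒰 k L,
    (uD Δ.D)^[r] x = 0 ∨ oo x ω - r * (1 + |vo ω.2 (Δ.D ω.1)|) ≤ oo ((uD Δ.D)^[r] x) ω := by
  induction r with
  | zero =>
    refine Eventually.of_forall fun ω => Or.inr ?_
    rw [Function.iterate_zero_apply]
    simp
  | succ r ih =>
    filter_upwards [ih, step_loss Δ ((uD Δ.D)^[r] x)] with ω h1 h2
    rw [Function.iterate_succ_apply']
    rcases h2 with h2 | h2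
    · exact Or.inl h2
    · rcases h1 with h1 | h1
      · left
        rw [h1, map_zero]
      · right
        push_cast
        linarith

section poly

variable {E : Type} [Field E] {t : ℕ}

theorem sd_iter {δ : MvPolynomial (Fin t) E → MvPolynomial (Fin t) E} (h : IsSd δ)
    (s : Fin t →₀ ℕ) (a : E) (r : ℕ) : ∃ b : E, δ^[r] (monomial s a) = monomial s b := by
  induction r with
  | zero => exact ⟨a, rfl⟩
  | succ r ih =>
    obtain ⟨b, hb⟩ := ih
    obtain ⟨b', hb'⟩ := h s b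
    exact ⟨b', by rw [Function.iterate_succ_apply', hb, hb']⟩

theorem sd_support (δ : Derivation ℤ (MvPolynomial (Fin t) E) (MvPolynomial (Fin t) E))
    (h : IsSd (⇑δ)) (f : MvPolynomial (Fin t) E) : (δ f).support ⊆ f.support := by
  intro s' hs'
  by_contra hn
  rw [mem_support_iff] at hs'
  apply hs'
  have h1 : δ f = ∑ s ∈ f.support, δ (monomial s (coeff s f)) := by
    conv_lhs => rw [← support_sum_monomial_coeff f]
    rw [map_sum]
  rw [h1, coeff_sum]
  refine Finset.sum_eq_zero fun s hs => ?_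
  obtain ⟨b, hb⟩ := h s (coeff s f)
  rw [hb, coeff_monomial, if_neg]
  rintro rfl
  exact hn hs

theorem sd_support_iter (δ : Derivation ℤ (MvPolynomial (Fin t) E) (MvPolynomial (Fin t) E))
    (h : IsSd (⇑δ)) (f : MvPolynomial (Fin t) E) (r : ℕ) : ((⇑δ)^[r] f).support ⊆ f.support := by
  induction r with
  | zero => exact subset_rfl
  | succ r ih =>
    rw [Function.iterate_succ_apply']
    exact (sd_support δ h _).trans ih

end poly

theorem hd_iter (Δ : Dt 𝒰 k F L) {t : ℕ} {u : Fin t → UL 𝒰 L}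
    {δ : Derivation ℤ (MvPolynomial (Fin t) Δ.E) (MvPolynomial (Fin t) Δ.E)}
    (h : ∀ f, aeval u (δ f) = uD Δ.D (aeval u f)) (f : MvPolynomial (Fin t) Δ.E) (r : ℕ) :
    aeval u ((⇑δ)^[r] f) = (uD Δ.D)^[r] (aeval u f) := by
  induction r with
  | zero => rfl
  | succ r ih => rw [Function.iterate_succ_apply', Function.iterate_succ_apply', h, ih]

theorem aeval_mon (Δ : Dt 𝒰 k F L) {t : ℕ} (u : Fin t → UL 𝒰 L) (s : Fin t →₀ ℕ) (a : Δ.E) :
    aeval u (monomial s a) = (a : UL 𝒰 L) * mon u s := by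
  rw [aeval_monomial, Finsupp.prod_fintype _ _ (fun i => pow_zero _)]
  rfl

theorem le (Δ : Dt 𝒰 k F L) (hLOW : S_LOW Δ) (hLD : S_LD Δ) (hHD : S_HD Δ) (hWR : S_WR Δ) :
    S_LE Δ := by
  intro t u hu n g
  obtain ⟨δ, hδ, hδu⟩ := hHD t u hu
  have h1 := fun (j r : Fin n) => hLOW t u (fun j => (hu j).1) ((⇑δ)^[(r : ℕ)] (g j))
  choose e he1 he2 using h1
  refine ⟨fun ω => ∑ j, ∑ r, max (e j r ω) 0, Bd.sum Δ.nonneg _ fun j _ =>
    Bd.sum Δ.nonneg _ fun r _ => (he1 j r).pos, ?_⟩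
  filter_upwards [oo_det (k := k) (wm (n := n) (uD Δ.D) (fun j => aeval u (g j))),
    eventually_all.2 fun j => eventually_all.2 fun r => he2 j r] with ω h2 h3 b hb
  refine h2 (fun j r => b j - max (e j r ω) 0) _ (fun j r => ?_) (fun σ => ?_)
  · have h4 := h3 j r (b j) (fun s hs => hb j s (sd_support_iter δ hδ (g j) r hs))
    rw [hd_iter Δ hδu] at h4
    rcases h4 with h4 | h4
    · exact Or.inl h4
    · right
      refine le_trans ?_ h4
      have := le_max_left (e j r ω) 0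
      linarith
  · exact perm_sum b (fun j r => max (e j r ω) 0) (fun j r => le_max_right _ _) σ

theorem mon_ne {t : ℕ} {u : Fin t → UL 𝒰 L} (hu : ∀ j, u j ≠ 0) (s : Fin t →₀ ℕ) : mon u s ≠ 0 :=
  Finset.prod_ne_zero_iff.2 fun j _ => pow_ne_zero _ (hu j)

theorem noc (Δ : Dt 𝒰 k F L) (hLOW : S_LOW Δ) (hLD : S_LD Δ) (hHD : S_HD Δ) (hWR : S_WR Δ) :
    S_C Δ := by
  intro t u hu f hf
  obtain ⟨δ, hδ, hδu⟩ := hHD t u hu.1
  have hu0 : ∀ j, u j ≠ 0 := fun j => (hu.1 j).1
  have hinj : Function.Injective (aeval u : MvPolynomial (Fin t) Δ.E → UL 𝒰 L) := hu.2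
  -- the monomials
  obtain ⟨n, hn⟩ : ∃ n, n = f.support.card := ⟨_, rfl⟩
  obtain ⟨ev, hev⟩ : ∃ ev : Fin n → (Fin t →₀ ℕ), Function.Injective ev ∧
      (∀ i, ev i ∈ f.support) ∧ ∀ s ∈ f.support, ∃ i, ev i = s := by
    subst hn
    refine ⟨fun i => (f.support.equivFin.symm i).1, ?_, fun i => (f.support.equivFin.symm i).2, ?_⟩
    · intro i j h
      exact f.support.equivFin.symm.injective (Subtype.ext h)
    · intro s hs
      exact ⟨f.support.equivFin ⟨s, hs⟩, by simp⟩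
  obtain ⟨hev1, hev2, hev3⟩ := hev
  obtain ⟨T, hT⟩ : ∃ T : Fin n → UL 𝒰 L, T = fun i => aeval u (monomial (ev i) (coeff (ev i) f)) :=
    ⟨_, rfl⟩
  have hsum : aeval u f = ∑ i, T i := by
    have h1 : f = ∑ i, monomial (ev i) (coeff (ev i) f) := by
      conv_lhs => rw [← support_sum_monomial_coeff f]
      symm
      refine Finset.sum_bij (fun i _ => ev i) (fun i _ => hev2 i) (fun i _ j _ h => hev1 h)
        (fun s hs => ?_) (fun i _ => rfl)
      obtain ⟨i, hi⟩ := hev3 s hs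
      exact ⟨i, Finset.mem_univ _, hi⟩
    conv_lhs => rw [h1]
    rw [map_sum, hT]
  -- the coefficients of the derivatives
  have hb := fun (i r : Fin n) => sd_iter (E := Δ.E) hδ (ev i) (coeff (ev i) f) (r : ℕ)
  choose b hb using hb
  have hM : ∀ i r : Fin n, (uD Δ.D)^[(r : ℕ)] (T i) = (b i r : UL 𝒰 L) * mon u (ev i) := by
    intro i r
    rw [hT, ← aeval_mon Δ u (ev i) (b i r), ← hb i r, hd_iter Δ hδu]
  -- linear independence
  have hli : LinearIndependent (K0 𝒰 k L) T := by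
    rw [Fintype.linearIndependent_iff]
    intro c hc i
    have hcE : ∀ i, (c i : UL 𝒰 L) ∈ Δ.E := fun i => Δ.K0_le (c i).2
    have h1 : aeval u (∑ i, monomial (ev i) ((⟨c i, hcE i⟩ : Δ.E) * coeff (ev i) f)) = 0 := by
      rw [map_sum, ← hc]
      refine Finset.sum_congr rfl fun i _ => ?_
      rw [hT, aeval_mon]
      show _ = (c i : UL 𝒰 L) * aeval u (monomial (ev i) (coeff (ev i) f))
      rw [aeval_mon]
      push_cast
      ring
    have h2 : (∑ i, monomial (ev i) ((⟨c i, hcE i⟩ : Δ.E) * coeff (ev i) f)) = 0 :=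
      hinj (by rw [h1, map_zero])
    have h3 := congrArg (coeff (ev i)) h2
    rw [coeff_sum, coeff_zero, Finset.sum_eq_single i] at h3
    · rw [coeff_monomial, if_pos rfl] at h3
      have h4 : coeff (ev i) f ≠ 0 := mem_support_iff.1 (hev2 i)
      have h5 := (mul_eq_zero.1 h3).resolve_right h4
      have h6 : (c i : UL 𝒰 L) = 0 := congrArg Subtype.val h5
      exact Subtype.ext h6
    · intro j _ hj
      rw [coeff_monomial, if_neg (fun h => hj (hev1 h))]
    · intro h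
      exact absurd (Finset.mem_univ i) h
  have hW := hWR.1 n T hli
  -- the matrix of the coefficients
  obtain ⟨d, hd⟩ : ∃ d : Δ.E, d = (Matrix.of b).det := ⟨_, rfl⟩
  have hWd : wr (uD Δ.D) T = (∏ i, mon u (ev i)) * (d : UL 𝒰 L) := by
    have h1 : (d : UL 𝒰 L) = (Matrix.of fun i r => (b i r : UL 𝒰 L)).det := by
      rw [hd]
      have := RingHom.map_det (algebraMap Δ.E (UL 𝒰 L)) (Matrix.of b)
      exact this
    rw [h1, ← Matrix.det_mul_column]
    unfold wr
    congr 1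
    ext i r
    show (uD Δ.D)^[(r : ℕ)] (T i) = _
    rw [hM]
    simp [mul_comm]
  have hd0 : (d : UL 𝒰 L) ≠ 0 := by
    intro h
    rw [h, mul_zero] at hWd
    exact hW hWd
  have hmon0 : ∀ i, mon u (ev i) ≠ 0 := fun i => mon_ne hu0 _
  have hprod0 : (∏ i, mon u (ev i)) ≠ 0 := Finset.prod_ne_zero_iff.2 fun i _ => hmon0 i
  -- rows
  have hrow : ∀ i0 : Fin n, ((wm (n := n) (uD Δ.D) T).updateRow i0
      (fun r : Fin n => (uD Δ.D)^[(r : ℕ)] (aeval u f))).det = wr (uD Δ.D) T := by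
    intro i0
    have h1 := Matrix.det_updateRow_sum (wm (n := n) (uD Δ.D) T) i0 (fun _ => 1)
    rw [one_smul] at h1
    unfold wr
    rw [← h1]
    congr 2
    funext r
    rw [Finset.sum_apply]
    simp only [one_smul]
    rw [hsum, iter_sum]
    rfl
  refine ⟨fun ω => |oo (d : UL 𝒰 L) ω| + n * |vo ω.2 (Δ.D ω.1)| +
    n * (∑ j, (if oo (u j) ω = 0 then 0 else 1)) + ∑ i, ∑ r, |oo (b i r : UL 𝒰 L) ω|, ?_, ?_⟩
  · refine (((Δ.bd_E d.2).add (Δ.vo_bd.smul n)).add
      ((Bd.sum Δ.nonneg _ fun j _ => (hu.1 j).2).smul n)).add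
      (Bd.sum Δ.nonneg _ fun i _ => Bd.sum Δ.nonneg _ fun r _ => Δ.bd_E (b i r).2)
  · -- the entries
    have hent : ∀ i r : Fin n, ∀ᶠ ω in EV 𝒰 k L, (uD Δ.D)^[(r : ℕ)] (T i) = 0 ∨
        oo (mon u (ev i)) ω - |oo (b i r : UL 𝒰 L) ω| ≤ oo ((uD Δ.D)^[(r : ℕ)] (T i)) ω := by
      intro i r
      by_cases h0 : (b i r : UL 𝒰 L) = 0
      · refine Eventually.of_forall fun ω => Or.inl ?_
        rw [hM, h0, zero_mul]
      · filter_upwards [oo_mul (k := k) h0 (hmon0 i)] with ω h1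
        right
        rw [hM, h1]
        have := neg_abs_le (oo (b i r : UL 𝒰 L) ω)
        linarith
    have hprod := oo_prod (k := k) Finset.univ (fun i => mon u (ev i)) (fun i _ => hmon0 i)
    filter_upwards [eventually_all.2 fun i0 => oo_det (k := k) ((wm (n := n) (uD Δ.D) T).updateRow i0
      (fun r : Fin n => (uD Δ.D)^[(r : ℕ)] (aeval u f))), oo_mul (k := k) hprod0 hd0, hprod,
      eventually_all.2 fun i => eventually_all.2 fun r => hent i r,
      eventually_all.2 fun r : Fin n => iter_loss Δ (aeval u f) (r : ℕ)] with ω h1 h2 h3 h4 h5 hω s hs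
    obtain ⟨i0, rfl⟩ := hev3 s hs
    have h6 := h1 i0 (fun i r => (if i = i0 then oo (aeval u f) ω - n * (1 + |vo ω.2 (Δ.D ω.1)|)
      else oo (mon u (ev i)) ω) - |oo (b i r : UL 𝒰 L) ω|) _ (fun i r => by
        by_cases hi : i = i0
        · subst hi
          rw [if_pos rfl, Matrix.updateRow_self]
          rcases h5 r with h | h
          · exact Or.inl h
          · right
            refine le_trans ?_ h
            have h7 : (0 : ℤ) ≤ |oo (b i r : UL 𝒰 L) ω| := abs_nonneg _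
            have h8 : (0 : ℤ) ≤ |vo ω.2 (Δ.D ω.1)| := abs_nonneg _
            have h9 : ((r : ℕ) : ℤ) ≤ n := by exact_mod_cast r.2.le
            nlinarith
        · rw [if_neg hi, Matrix.updateRow_ne hi]
          exact h4 i r)
      (fun σ => perm_sum (fun i => if i = i0 then oo (aeval u f) ω - n * (1 + |vo ω.2 (Δ.D ω.1)|)
        else oo (mon u (ev i)) ω) (fun i r => |oo (b i r : UL 𝒰 L) ω|) (fun i r => abs_nonneg _) σ)
    rw [hrow i0] at h6
    have h7 := h6.resolve_left hW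
    rw [hWd, h2, h3] at h7
    have h8 : ∑ i, (if i = i0 then oo (aeval u f) ω - n * (1 + |vo ω.2 (Δ.D ω.1)|)
        else oo (mon u (ev i)) ω) = ∑ i, oo (mon u (ev i)) ω +
        (oo (aeval u f) ω - n * (1 + |vo ω.2 (Δ.D ω.1)|) - oo (mon u (ev i0)) ω) := by
      have h9 : ∀ i : Fin n, (if i = i0 then oo (aeval u f) ω - n * (1 + |vo ω.2 (Δ.D ω.1)|)
          else oo (mon u (ev i)) ω) = oo (mon u (ev i)) ω + (if i = i0 then
          (oo (aeval u f) ω - n * (1 + |vo ω.2 (Δ.D ω.1)|) - oo (mon u (ev i0)) ω) else 0) := by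
        intro i
        split_ifs with hi
        · rw [hi]
          ring
        · ring
      rw [Finset.sum_congr rfl fun i _ => h9 i, Finset.sum_add_distrib, Finset.sum_ite_eq' ,
        if_pos (Finset.mem_univ _)]
    rw [h8] at h7
    have h9 : (1 : ℤ) ≤ ∑ j, (if oo (u j) ω = 0 then 0 else 1) := by
      obtain ⟨j, hj⟩ := hω
      have h10 : (if oo (u j) ω = 0 then (0 : ℤ) else 1) = 1 := if_neg hj
      exact h10.ge.trans (Finset.single_le_sum (f := fun j => if oo (u j) ω = 0 then (0 : ℤ) else 1)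
        (fun j _ => by split_ifs <;> norm_num) (Finset.mem_univ j))
    have h10 := le_abs_self (oo (d : UL 𝒰 L) ω)
    have h11 : (0 : ℤ) ≤ n := Int.natCast_nonneg n
    have h12 : (n : ℤ) * 1 ≤ n * ∑ j, (if oo (u j) ω = 0 then 0 else 1) :=
      mul_le_mul_of_nonneg_left h9 h11
    linarith

end Pool.Agent.Y563.FG
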